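import Pool.Agent.Helper21S.Cts2

/-!
# `Ω`-stable diffeomorphisms: hyperbolicity in invariant submanifolds of codimension two

`V n = ℝⁿ`, `DiffM n N r = Diff^r(N)` with its `C^r` topology (`Pool/Agent/H718R2/G0.lean`);
`OmegaStable`: `Pool/Agent/TH80/OMS/Defs.lean`. Mathlib identifies each tangent space `T_x N` with `ℝⁿ`.
-/

set_option autoImplicit false

open scoped Manifold ContDiff Topology
open Set

universe u v

namespace Pool.Agent.Results.MP_4a0782_an.CodimTwoSplitting

open Pool.Agent.H718R2.G Pool.Agent.TH80.OMS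

section

variable (n : ℕ) {N : Type u} [TopologicalSpace N] [ChartedSpace (V n) N]

/-- The derivative of `F : N → N` at `x`. -/
noncomputable def DL (F : N → N) (x : N) : V n →L[ℝ] V n := mfderiv (𝓡 n) (𝓡 n) F x

/-- The image of `v ∈ T_x N` under the derivative of `F : N → N`, a vector of `T_(F x) N`. -/
noncomputable def D (F : N → N) (x : N) (v : V n) : V n := DL n F x v

/-- The derivative of `g : N → ℂ` at `x`. -/
noncomputable def dgL (g : N → ℂ) (x : N) : V n →L[ℝ] ℂ := mfderiv (𝓡 n) 𝓘(ℝ, ℂ) g x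

/-- The image of `v ∈ T_x N` under the derivative of `g : N → ℂ`. -/
noncomputable def dg (g : N → ℂ) (x : N) (v : V n) : ℂ := dgL n g x v

/-- The tangent space at `x` of the submanifold `{g = 0}`, the kernel of the derivative of `g`. -/
noncomputable def tangent (g : N → ℂ) (x : N) : Submodule ℝ (V n) :=
  (dgL n g x : V n →ₗ[ℝ] ℂ).ker

/-- the oriented area of the parallelogram spanned by `z` and `w` -/
def area (z w : ℂ) : ℝ := ((starRingEnd ℂ) z * w).im

/-- `z` is a real multiple of `w`. -/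
def Along (w z : ℂ) : Prop := ∃ t : ℝ, z = t * w

/-- Periodic shadowing: periodic `δ`-pseudo-orbits of `h` are `η`-shadowed by periodic orbits with the
same period, if `δ` is small enough, depending on `η`. -/
def PerShadow {Y : Type v} [MetricSpace Y] (h : Y → Y) : Prop :=
  ∀ η : ℝ, 0 < η → ∃ δ : ℝ, 0 < δ ∧ ∀ (m : ℕ) (w : ℕ → Y), 1 ≤ m → w m = w 0 →
    (∀ i < m, dist (h (w i)) (w (i + 1)) < δ) →
    ∃ p : Y, h^[m] p = p ∧ ∀ i < m, dist (h^[i] p) (w i) < η

/-- Chain transitivity: all points are connected by `δ`-pseudo-orbits, for all `δ > 0`. -/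
def ChainTrans {Y : Type v} [MetricSpace Y] (h : Y → Y) : Prop :=
  ∀ δ : ℝ, 0 < δ → ∀ p q : Y, ∃ m : ℕ, 1 ≤ m ∧ ∃ w : ℕ → Y, w 0 = p ∧ w m = q ∧
    ∀ i < m, dist (h (w i)) (w (i + 1)) < δ

/-- On the set `K = Θ(Y)` the map `F` is a factor of the continuous map `h` of a metric space `Y`, which
is chain transitive and has the periodic shadowing property. -/
structure ShadowFactor (F : N → N) {Y : Type v} [MetricSpace Y] (h : Y → Y) (Θ : Y → N) : Prop where
  cont : Continuous h
  shadow : PerShadow h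
  trans : ChainTrans h
  cont' : Continuous Θ
  conj : ∀ y, F (Θ y) = Θ (h y)

/-- `g : N → ℂ` is smooth near the points of `K`, it vanishes on `K` and is a submersion at the points of
`K`. So `K` lies in the submanifold `S = {g = 0}` of codimension two, and the derivative of `g`
identifies the normal plane `T_x N / T_x S` with `ℂ`, `x ∈ K`. The derivative of `F` maps `T_x S` into
`T_(F x) S` and preserves the orientation of the normal planes, `x ∈ K`. -/
structure NormalPlanes (F : N → N) (K : Set N) (g : N → ℂ) : Prop where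
  smooth : ∀ z ∈ K, ∃ W ∈ 𝓝 z, ContMDiffOn (𝓡 n) 𝓘(ℝ, ℂ) ∞ g W
  zero : ∀ x ∈ K, g x = 0
  onto : ∀ x ∈ K, Function.Surjective (dg n g x)
  inv : ∀ x ∈ K, ∀ v : V n, dg n g x v = 0 → dg n g (F x) (D n F x v) = 0
  orient : ∀ x ∈ K, ∀ v w : V n, 0 < area (dg n g x v) (dg n g x w) →
    0 < area (dg n g (F x) (D n F x v)) (dg n g (F x) (D n F x w))

/-- `DF` is uniformly contracting on the normal planes over `K`. -/
def Contracting (F : N → N) (K : Set N) (g : N → ℂ) : Prop :=
  ∃ κ C : ℝ, 0 < κ ∧ 0 < C ∧ ∀ x ∈ K, ∀ (m : ℕ) (v : V n),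
    ‖dg n g (F^[m] x) (D n F^[m] x v)‖ ≤ C * Real.exp (-(κ * m)) * ‖dg n g x v‖

/-- `DF` is uniformly expanding on the normal planes over `K`. -/
def Expanding (F : N → N) (K : Set N) (g : N → ℂ) : Prop :=
  ∃ κ C : ℝ, 0 < κ ∧ 0 < C ∧ ∀ x ∈ K, ∀ (m : ℕ) (v : V n),
    Real.exp (κ * m) * ‖dg n g x v‖ ≤ C * ‖dg n g (F^[m] x) (D n F^[m] x v)‖

/-- The normal planes over `K` are the direct sum of the lines with directions `s x` and `u x`, which
depend continuously on `x ∈ K` (`s` and `u` are unit vectors up to sign, so their squares are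
continuous) and are invariant under `DF`; `DF` is uniformly contracting on the first lines and
uniformly expanding on the second ones. -/
structure Saddle (F : N → N) (K : Set N) (g s u : N → ℂ) (κ C : ℝ) : Prop where
  κ_pos : 0 < κ
  C_pos : 0 < C
  cont_s : ContinuousOn (fun x => s x ^ 2) K
  cont_u : ContinuousOn (fun x => u x ^ 2) K
  unit : ∀ x ∈ K, ‖s x‖ = 1 ∧ ‖u x‖ = 1
  sum : ∀ x ∈ K, ¬ Along (s x) (u x)
  inv_s : ∀ x ∈ K, ∀ v : V n, Along (s x) (dg n g x v) →
    Along (s (F x)) (dg n g (F x) (D n F x v))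
  inv_u : ∀ x ∈ K, ∀ v : V n, Along (u x) (dg n g x v) →
    Along (u (F x)) (dg n g (F x) (D n F x v))
  contr : ∀ x ∈ K, ∀ (m : ℕ) (v : V n), Along (s x) (dg n g x v) →
    ‖dg n g (F^[m] x) (D n F^[m] x v)‖ ≤ C * Real.exp (-(κ * m)) * ‖dg n g x v‖
  expand : ∀ x ∈ K, ∀ (m : ℕ) (v : V n), Along (u x) (dg n g x v) →
    Real.exp (κ * m) * ‖dg n g x v‖ ≤ C * ‖dg n g (F^[m] x) (D n F^[m] x v)‖

/-- The derivative of `ι : N → ℝ^q` at `x`. -/
noncomputable def di {q : ℕ} (ι : N → V q) (x : N) : V n →L[ℝ] V q := mfderiv (𝓡 n) (𝓡 q) ι x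

/-- A smooth immersion `ι : N → ℝ^q`. It induces a Riemannian metric on `N`: the norm of a tangent
vector `v ∈ T_x N` is `‖dι_x v‖`. (By Whitney's theorem immersions exist, and on a compact manifold the
norms of different metrics are equivalent.) -/
structure Immersion {q : ℕ} (ι : N → V q) : Prop where
  smooth : ContMDiff (𝓡 n) (𝓡 q) ∞ ι
  inj : ∀ x, Function.Injective (di n ι x)

/-- The norm of `v ∈ T_x N` in the metric induced by `ι`. -/
noncomputable def nrm {q : ℕ} (ι : N → V q) (x : N) (v : V n) : ℝ := ‖di n ι x v‖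

/-- `P` is the direct sum of `A` and `B`. -/
def DirectSum (P A B : Submodule ℝ (V n)) : Prop := A ⊓ B = ⊥ ∧ A ⊔ B = P

/-- The vector `v ∈ T_x N` belongs to the subspace `E x`. -/
def In (E : N → Submodule ℝ (V n)) (x : N) (v : V n) : Prop := v ∈ E x

/-- The subspaces `A x`, `x ∈ K`, are closed relative to the subspaces `P x`: a vector of `P z` which is
a limit of vectors of the spaces `A x`, `x ∈ K`, belongs to `A z`. -/
def Closed (K : Set N) {q : ℕ} (ι : N → V q) (P A : N → Submodule ℝ (V n)) : Prop :=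
  ∀ z ∈ K, ∀ w : V n, In n P z w → (z, di n ι z w) ∈
    closure {p : N × V q | ∃ x ∈ K, ∃ v : V n, In n A x v ∧ p = (x, di n ι x v)} → In n A z w

/-- The subspaces `P x` of the tangent spaces `T_x N`, `x ∈ K`, have the hyperbolic splitting
`P x = Es x ⊕ Eu x`: it is invariant under `DF` and continuous (`Es` and `Eu` are closed), and `DF` is
uniformly contracting on `Es` and uniformly expanding on `Eu`, for the metric induced by `ι`. -/
structure Splitting (F : N → N) (K : Set N) {q : ℕ} (ι : N → V q)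
    (P Es Eu : N → Submodule ℝ (V n)) (κ C : ℝ) : Prop where
  κ_pos : 0 < κ
  C_pos : 0 < C
  sum : ∀ x ∈ K, DirectSum n (P x) (Es x) (Eu x)
  inv_s : ∀ x ∈ K, ∀ v : V n, In n Es x v ↔ In n Es (F x) (D n F x v)
  inv_u : ∀ x ∈ K, ∀ v : V n, In n Eu x v ↔ In n Eu (F x) (D n F x v)
  contr : ∀ x ∈ K, ∀ (m : ℕ) (v : V n), In n Es x v →
    nrm n ι (F^[m] x) (D n F^[m] x v) ≤ C * Real.exp (-(κ * m)) * nrm n ι x v
  expand : ∀ x ∈ K, ∀ (m : ℕ) (v : V n), In n Eu x v →
    Real.exp (κ * m) * nrm n ι x v ≤ C * nrm n ι (F^[m] x) (D n F^[m] x v)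
  closed_s : Closed n K ι P Es
  closed_u : Closed n K ι P Eu

/-- `F` is hyperbolic over `K` on the subspaces `P x` of the tangent spaces. If `P x = T_x N` this says
that `K` is a hyperbolic set of `F`. -/
def Hyperbolic (F : N → N) (K : Set N) {q : ℕ} (ι : N → V q) (P : N → Submodule ℝ (V n)) : Prop :=
  ∃ (Es Eu : N → Submodule ℝ (V n)) (κ C : ℝ), Splitting n F K ι P Es Eu κ C

/-- The first conclusion: `DF` acts uniformly hyperbolically on the normal planes over `K`. -/
def Part1 (F : N → N) (K : Set N) (g : N → ℂ) : Prop :=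
  Contracting n F K g ∨ Expanding n F K g ∨ ∃ (s u : N → ℂ) (κ C : ℝ), Saddle n F K g s u κ C

/-- The second conclusion: if `F` is hyperbolic over `K` on the tangent spaces of `{g = 0}`, then `K` is
a hyperbolic set of `F`. -/
def Part2 (F : N → N) (K : Set N) (g : N → ℂ) : Prop :=
  ∀ (q : ℕ) (ι : N → V q), Immersion n ι → Hyperbolic n F K ι (tangent n g) →
    Hyperbolic n F K ι fun _ => ⊤

end

/-- Let `N` be a closed manifold, `1 ≤ r ≤ ∞`, and let `F ∈ Diff^r(N)` be `Ω`-stable (for instance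
structurally stable).

Let `K = Θ(Y)` be a compact invariant set on which `F` is a factor of a chain transitive map with
periodic shadowing (for instance `F|K` is topologically conjugate to a transitive Anosov
diffeomorphism or to a hyperbolic basic set), and let `K` lie in a submanifold `S` of codimension
two, with trivial normal bundle, such that the derivative of `F` preserves the tangent spaces of `S` at
the points of `K` and the orientation of the normal planes. (For instance: `K ⊆ S` and `S` is an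
invariant closed submanifold.)

Then the action of `DF` on the normal planes over `K` is uniformly hyperbolic: it is uniformly
contracting, or uniformly expanding, or there is a continuous invariant splitting of the normal planes
into a uniformly contracted and a uniformly expanded line. If moreover `DF` is hyperbolic on the tangent
spaces of `S` over `K`, then `K` is a hyperbolic set of `F`. -/
theorem result {n : ℕ} {N : Type u} [TopologicalSpace N] [T2Space N] [CompactSpace N]
    [ChartedSpace (V n) N] [IsManifold (𝓡 n) ∞ N] (r : ℕ∞) (hr : 1 ≤ r) (F : DiffM n N r)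
    (hF : OmegaStable n N r F) {Y : Type v} [MetricSpace Y] [CompactSpace Y] (h : Y → Y)
    (Θ : Y → N) (hY : ShadowFactor F h Θ) (g : N → ℂ) (hg : NormalPlanes n F (range Θ) g) :
    Part1 n F (range Θ) g ∧ Part2 n F (range Θ) g := by
  constructor
  · obtain ⟨κ, C, hκ, hC, h1⟩ := Pool.Agent.Helper21S.normal_plane' hr hF hY.cont hY.shadow hY.trans
      hY.cont' hY.conj hg.smooth hg.zero hg.onto hg.inv hg.orient
    rcases h1 with h1 | h1 | ⟨s, u, a1, a2, a3, a4, a5, a6, a7⟩
    · exact Or.inl ⟨κ, C, hκ, hC, h1⟩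
    · exact Or.inr (Or.inl ⟨κ, C, hκ, hC, h1⟩)
    · exact Or.inr (Or.inr ⟨s, u, κ, C, hκ, hC, a1, a2, fun x hx => ⟨(a3 x hx).1, (a3 x hx).2.1⟩,
        fun x hx => (a3 x hx).2.2, a4, a5, a6, a7⟩)
  · rintro q ι hι ⟨S, U, κ, C, hS⟩
    obtain ⟨Es, Eu, κ', C', hκ', hC', h1⟩ := Pool.Agent.Helper21S.hyp_planes hr hF hY.cont
      hY.shadow hY.trans (g := g)
      hY.cont' hY.conj hg.smooth hg.zero hg.onto hg.orient (ι := ι)
      (hι.smooth.of_le (by norm_cast)) (fun x _ => hι.inj x) (S := S) (U := U)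
      (fun x hx v => by
        rw [(hS.sum x hx).2]
        rfl)
      hS.inv_s hS.inv_u hS.κ_pos hS.C_pos hS.contr hS.expand
    obtain ⟨c1, c2⟩ := Pool.Agent.Helper21S.spl_closed (P := fun _ => ⊤) (S := Es) (U := Eu)
      (κ := κ') (C := C') hr hY.cont hY.trans hY.conj (hι.smooth.of_le (by norm_cast))
      (fun x _ => hι.inj x)
      ⟨hκ', hC', fun x hx => (h1 x hx).1, fun x hx => (h1 x hx).2.1,
        fun x hx => (h1 x hx).2.2.1, fun x hx => (h1 x hx).2.2.2.1,
        fun x hx => (h1 x hx).2.2.2.2.1, fun x hx => (h1 x hx).2.2.2.2.2⟩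
    exact ⟨Es, Eu, κ', C', hκ', hC', fun x hx => ⟨(h1 x hx).1, (h1 x hx).2.1⟩,
      fun x hx => (h1 x hx).2.2.1, fun x hx => (h1 x hx).2.2.2.1,
      fun x hx => (h1 x hx).2.2.2.2.1, fun x hx => (h1 x hx).2.2.2.2.2, c1, c2⟩

end Pool.Agent.Results.MP_4a0782_an.CodimTwoSplitting
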