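import Pool.Agent.Helper21S.Cts2

/-!
# `Ω`-stable diffeomorphisms: conformal flags in the normal bundle of an invariant submanifold

`V n = ℝⁿ`, `DiffM n N r = Diff^r(N)` with its `C^r` topology (`Pool/Agent/H718R2/G0.lean`);
`OmegaStable`: `Pool/Agent/TH80/OMS/Defs.lean`. Mathlib identifies each tangent space `T_x N` with `ℝⁿ`.
-/

set_option autoImplicit false

open scoped Manifold ContDiff Topology
open Set

universe u v

namespace Pool.Agent.Results.MP_4a0782_an.ConformalNormal

open Pool.Agent.H718R2.G Pool.Agent.TH80.OMS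

/-- Periodic shadowing: periodic `δ`-pseudo-orbits of `h` are `η`-shadowed by periodic orbits with the
same period, if `δ` is small enough, depending on `η`. -/
def PerShadow {Y : Type v} [MetricSpace Y] (h : Y → Y) : Prop :=
  ∀ η : ℝ, 0 < η → ∃ δ : ℝ, 0 < δ ∧ ∀ (m : ℕ) (w : ℕ → Y), 1 ≤ m → w m = w 0 →
    (∀ i < m, dist (h (w i)) (w (i + 1)) < δ) →
    ∃ p : Y, h^[m] p = p ∧ ∀ i < m, dist (h^[i] p) (w i) < η

/-- Chain transitivity: all points are connected by `δ`-pseudo-orbits, for all `δ > 0`. -/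
def ChainTrans {Y : Type v} [MetricSpace Y] (h : Y → Y) : Prop :=
  ∀ δ : ℝ, 0 < δ → ∀ p q : Y, ∃ m : ℕ, 1 ≤ m ∧ ∃ w : ℕ → Y, w 0 = p ∧ w m = q ∧
    ∀ i < m, dist (h (w i)) (w (i + 1)) < δ

section

variable (n : ℕ) {N : Type u} [TopologicalSpace N] [ChartedSpace (V n) N]

/-- The derivative of `F : N → N` at `x`. -/
noncomputable def DL (F : N → N) (x : N) : V n →L[ℝ] V n := mfderiv (𝓡 n) (𝓡 n) F x

/-- The image of `v ∈ T_x N` under the derivative of `F : N → N`, a vector of `T_(F x) N`. -/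
noncomputable def D (F : N → N) (x : N) (v : V n) : V n := DL n F x v

/-- The derivative of `g : N → ℝ^k` at `x`. -/
noncomputable def dg {k : ℕ} (g : N → V k) (x : N) : V n →L[ℝ] V k := mfderiv (𝓡 n) (𝓡 k) g x

omit [TopologicalSpace N] [ChartedSpace (V n) N] in
/-- The vector `v ∈ T_x N` belongs to the subspace `E x`. -/
def In (E : N → Submodule ℝ (V n)) (x : N) (v : V n) : Prop := v ∈ E x

omit [TopologicalSpace N] [ChartedSpace (V n) N] in
/-- The value of the seminorm `ν x` at `v ∈ T_x N`. -/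
def sn (ν : N → Seminorm ℝ (V n)) (x : N) (v : V n) : ℝ := ν x v

/-- On the set `K = Θ(Y)` the map `F` is a factor of the continuous map `h` of a metric space `Y`, which
is chain transitive and has the periodic shadowing property. -/
structure ShadowFactor (F : N → N) {Y : Type v} [MetricSpace Y] (h : Y → Y) (Θ : Y → N) : Prop where
  cont : Continuous h
  shadow : PerShadow h
  trans : ChainTrans h
  cont' : Continuous Θ
  conj : ∀ y, F (Θ y) = Θ (h y)

/-- Near the point `z` the set `K` lies in a smooth submanifold whose tangent space at the points `x`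
of `K` is `E x`: there is a smooth map `g` from a neighbourhood `W` of `z` to some `ℝ^k`, a submersion
at `z`, which vanishes on `K ∩ W`, and `E x` is the kernel of its derivative for `x ∈ K ∩ W`. -/
def LocSub (K : Set N) (E : N → Submodule ℝ (V n)) (z : N) : Prop :=
  ∃ (k : ℕ) (g : N → V k) (W : Set N), W ∈ 𝓝 z ∧ ContMDiffOn (𝓡 n) (𝓡 k) ∞ g W ∧
    Function.Surjective (dg n g z) ∧ ∀ x ∈ K, x ∈ W → g x = 0 ∧ ∀ v : V n, dg n g x v = 0 ↔ In n E x v

/-- The set `K` is locally contained in smooth submanifolds with tangent spaces `E 0 x`, `x ∈ K`;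
`E 0 x < E 1 x < ... < E q x` are subspaces of `T_x N`, invariant under `DF`; for `j < q`, `ν j x` is a
norm on `E (j + 1) x / E j x` (a seminorm on `T_x N`, which vanishes at the vectors `v` of `E (j + 1) x`
if and only if `v ∈ E j x`), and `DF` multiplies it by the positive number `a j x`, which depends
continuously on `x ∈ K`. -/
structure ConfFlag (F : N → N) (K : Set N) (q : ℕ) (E : ℕ → N → Submodule ℝ (V n))
    (ν : ℕ → N → Seminorm ℝ (V n)) (a : ℕ → N → ℝ) : Prop where
  sub : ∀ z ∈ K, LocSub n K (E 0) z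
  inv : ∀ j ≤ q, ∀ x ∈ K, ∀ v : V n, In n (E j) x v ↔ In n (E j) (F x) (D n F x v)
  lt : ∀ j < q, ∀ x ∈ K, E j x < E (j + 1) x
  norm : ∀ j < q, ∀ x ∈ K, ∀ v : V n, In n (E (j + 1)) x v → (sn n (ν j) x v = 0 ↔ In n (E j) x v)
  cont : ∀ j < q, ContinuousOn (a j) K
  pos : ∀ j < q, ∀ x ∈ K, 0 < a j x
  conf : ∀ j < q, ∀ x ∈ K, ∀ v : V n, In n (E (j + 1)) x v →
    sn n (ν j) (F x) (D n F x v) = a j x * sn n (ν j) x v

/-- `DF` is uniformly contracting on `P`, for the seminorm `ν`, over `K`. -/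
def Contracting (F : N → N) (K : Set N) (P : N → Submodule ℝ (V n)) (ν : N → Seminorm ℝ (V n)) :
    Prop :=
  ∃ κ C : ℝ, 0 < κ ∧ 0 < C ∧ ∀ x ∈ K, ∀ (m : ℕ) (v : V n), In n P x v →
    sn n ν (F^[m] x) (D n F^[m] x v) ≤ C * Real.exp (-(κ * m)) * sn n ν x v

/-- `DF` is uniformly expanding on `P`, for the seminorm `ν`, over `K`. -/
def Expanding (F : N → N) (K : Set N) (P : N → Submodule ℝ (V n)) (ν : N → Seminorm ℝ (V n)) :
    Prop :=
  ∃ κ C : ℝ, 0 < κ ∧ 0 < C ∧ ∀ x ∈ K, ∀ (m : ℕ) (v : V n), In n P x v →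
    Real.exp (κ * m) * sn n ν x v ≤ C * sn n ν (F^[m] x) (D n F^[m] x v)

/-- A smooth immersion `ι : N → ℝ^k`. It induces a Riemannian metric on `N`: the norm of a tangent
vector `v ∈ T_x N` is `‖dι_x v‖`. (By Whitney's theorem immersions exist, and on a compact manifold the
norms of different metrics are equivalent.) -/
structure Immersion {k : ℕ} (ι : N → V k) : Prop where
  smooth : ContMDiff (𝓡 n) (𝓡 k) ∞ ι
  inj : ∀ x, Function.Injective (dg n ι x)

/-- The norm of `v ∈ T_x N` in the metric induced by `ι`. -/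
noncomputable def nrm {k : ℕ} (ι : N → V k) (x : N) (v : V n) : ℝ := ‖dg n ι x v‖

/-- The norms `ν j x` on the quotients `E (j + 1) x / E j x`, `j < q`, are comparable with the norms
induced by the metric, uniformly in `x ∈ K`. -/
def Comparable (K : Set N) (q : ℕ) (E : ℕ → N → Submodule ℝ (V n)) (ν : ℕ → N → Seminorm ℝ (V n))
    {k : ℕ} (ι : N → V k) : Prop :=
  ∃ B : ℝ, ∀ j < q, ∀ x ∈ K, ∀ v : V n, In n (E (j + 1)) x v →
    sn n (ν j) x v ≤ B * nrm n ι x v ∧ ∃ e : V n, In n (E j) x e ∧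
      nrm n ι x (v - e) ≤ B * sn n (ν j) x v

/-- `P` is the direct sum of `A` and `B`. -/
def DirectSum (P A B : Submodule ℝ (V n)) : Prop := A ⊓ B = ⊥ ∧ A ⊔ B = P

/-- The subspaces `A x`, `x ∈ K`, are closed relative to the subspaces `P x`: a vector of `P z` which is
a limit of vectors of the spaces `A x`, `x ∈ K`, belongs to `A z`. -/
def Closed (K : Set N) {k : ℕ} (ι : N → V k) (P A : N → Submodule ℝ (V n)) : Prop :=
  ∀ z ∈ K, ∀ w : V n, In n P z w → (z, dg n ι z w) ∈
    closure {p : N × V k | ∃ x ∈ K, ∃ v : V n, In n A x v ∧ p = (x, dg n ι x v)} → In n A z w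

/-- The subspaces `P x` of the tangent spaces `T_x N`, `x ∈ K`, have the hyperbolic splitting
`P x = Es x ⊕ Eu x`: it is invariant under `DF` and continuous (`Es` and `Eu` are closed), and `DF` is
uniformly contracting on `Es` and uniformly expanding on `Eu`, for the metric induced by `ι`. -/
structure Splitting (F : N → N) (K : Set N) {k : ℕ} (ι : N → V k)
    (P Es Eu : N → Submodule ℝ (V n)) (κ C : ℝ) : Prop where
  κ_pos : 0 < κ
  C_pos : 0 < C
  sum : ∀ x ∈ K, DirectSum n (P x) (Es x) (Eu x)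
  inv_s : ∀ x ∈ K, ∀ v : V n, In n Es x v ↔ In n Es (F x) (D n F x v)
  inv_u : ∀ x ∈ K, ∀ v : V n, In n Eu x v ↔ In n Eu (F x) (D n F x v)
  contr : ∀ x ∈ K, ∀ (m : ℕ) (v : V n), In n Es x v →
    nrm n ι (F^[m] x) (D n F^[m] x v) ≤ C * Real.exp (-(κ * m)) * nrm n ι x v
  expand : ∀ x ∈ K, ∀ (m : ℕ) (v : V n), In n Eu x v →
    Real.exp (κ * m) * nrm n ι x v ≤ C * nrm n ι (F^[m] x) (D n F^[m] x v)
  closed_s : Closed n K ι P Es
  closed_u : Closed n K ι P Eu

/-- `F` is hyperbolic over `K` on the subspaces `P x` of the tangent spaces. If `P x = T_x N` this says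
that `K` is a hyperbolic set. -/
def Hyperbolic (F : N → N) (K : Set N) {k : ℕ} (ι : N → V k) (P : N → Submodule ℝ (V n)) : Prop :=
  ∃ (Es Eu : N → Submodule ℝ (V n)) (κ C : ℝ), Splitting n F K ι P Es Eu κ C

/-- The first conclusion: `DF` is uniformly contracting or uniformly expanding on each quotient
`E (j + 1) / E j`, `j < q`. -/
def Part1 (F : N → N) (K : Set N) (q : ℕ) (E : ℕ → N → Submodule ℝ (V n))
    (ν : ℕ → N → Seminorm ℝ (V n)) : Prop :=
  ∀ j < q, Contracting n F K (E (j + 1)) (ν j) ∨ Expanding n F K (E (j + 1)) (ν j)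

/-- The second conclusion: if `F` is hyperbolic over `K` on the subspaces `E 0`, then it is hyperbolic
over `K` on the subspaces `E q`. If these are the tangent spaces of `N` then `K` is a hyperbolic set. -/
def Part2 (F : N → N) (K : Set N) (q : ℕ) (E : ℕ → N → Submodule ℝ (V n))
    (ν : ℕ → N → Seminorm ℝ (V n)) : Prop :=
  ∀ (k : ℕ) (ι : N → V k), Immersion n ι → Comparable n K q E ν ι → Hyperbolic n F K ι (E 0) →
    Hyperbolic n F K ι (E q)

end

/-- Let `N` be a closed manifold, `1 ≤ r ≤ ∞`, and let `F ∈ Diff^r(N)` be `Ω`-stable (for instance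
structurally stable).

Let `K = Θ(Y)` be a compact invariant set on which `F` is a factor of a chain transitive map with
periodic shadowing (for instance `F|K` is topologically conjugate to a transitive Anosov
diffeomorphism or to a hyperbolic basic set), let `K` be locally contained in smooth submanifolds
with tangent spaces `E 0 x`, and let `E 0 x < E 1 x < ... < E q x` be `DF`-invariant subspaces of
`T_x N`, such that `DF` is conformal on the quotients `E (j + 1) / E j`, with continuous factors. (For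
instance: `K` lies in a closed invariant hypersurface, `E 0` is its tangent bundle, `q = 1` and
`E 1 = TN`; or `K` lies in a closed invariant submanifold `S` of codimension `q`, whose normal bundle
has a continuous invariant flag of subbundles.)

Then `DF` is uniformly contracting or uniformly expanding on each quotient `E (j + 1) / E j`. If
moreover `DF` is hyperbolic on `E 0` then it is hyperbolic on `E q`, so that `K` is a hyperbolic set of
`F` if `E q = TN`. -/
theorem result {n : ℕ} {N : Type u} [TopologicalSpace N] [T2Space N] [CompactSpace N]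
    [ChartedSpace (V n) N] [IsManifold (𝓡 n) ∞ N] (r : ℕ∞) (hr : 1 ≤ r) (F : DiffM n N r)
    (hF : OmegaStable n N r F) {Y : Type v} [MetricSpace Y] [CompactSpace Y] (h : Y → Y)
    (Θ : Y → N) (hY : ShadowFactor F h Θ) (q : ℕ) (E : ℕ → N → Submodule ℝ (V n))
    (ν : ℕ → N → Seminorm ℝ (V n)) (a : ℕ → N → ℝ) (hE : ConfFlag n F (range Θ) q E ν a) :
    Part1 n F (range Θ) q E ν ∧ Part2 n F (range Θ) q E ν := by
  constructor
  · intro j hj
    obtain ⟨κ, hκ, C, hC, h1⟩ := Pool.Agent.Helper21S.flag_ce2 hr hF hY.cont hY.shadow hY.trans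
      hY.cont' hY.conj hE.sub hE.inv hE.lt hE.norm hE.cont hE.pos hE.conf j hj
    exact h1.imp (fun h2 => ⟨κ, C, hκ, hC, h2⟩) (fun h2 => ⟨κ, C, hκ, hC, h2⟩)
  · rintro k ι hι ⟨B, hB⟩ ⟨S, U, κ, C, hS⟩
    obtain ⟨Es, Eu, κ', C', hs⟩ := Pool.Agent.Helper21S.flag_hyp2 hr hF hY.cont hY.shadow hY.trans
      hY.cont' hY.conj hE.sub hE.inv hE.lt hE.norm hE.cont hE.pos hE.conf
      (hι.smooth.of_le (by norm_cast)) (fun x _ => hι.inj x) hB
      ⟨S, U, κ, C, hS.κ_pos, hS.C_pos, fun x hx => (hS.sum x hx).1, fun x hx => (hS.sum x hx).2,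
        hS.inv_s, hS.inv_u, hS.contr, hS.expand⟩ q le_rfl
    obtain ⟨c1, c2⟩ := Pool.Agent.Helper21S.spl_closed hr hY.cont hY.trans hY.conj
      (hι.smooth.of_le (by norm_cast)) (fun x _ => hι.inj x) hs
    exact ⟨Es, Eu, κ', C', hs.κ_pos, hs.C_pos, fun x hx => ⟨hs.inf x hx, hs.sup x hx⟩,
      hs.inv_s, hs.inv_u, hs.contr, hs.expand, c1, c2⟩

end Pool.Agent.Results.MP_4a0782_an.ConformalNormal
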