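import Pool.Agent.Helper21S.Normal

/-!
# Normal eigenvalues of the periodic points of `Ω`-stable diffeomorphisms in invariant submanifolds

`V n = ℝⁿ`, `DiffM n N r = Diff^r(N)` with its `C^r` topology (`Pool/Agent/H718R2/G0.lean`);
`OmegaStable`: `Pool/Agent/TH80/OMS/Defs.lean`. `dm F x` is the derivative of `F : N → N` at `x`
(`Pool/Agent/Helper21S/Coc.lean`); tangent spaces are identified with `ℝⁿ` as in Mathlib.
`LocSub n K E z` (`Pool/Agent/Helper21S/Normal.lean`): near `z` the set `K` lies in a smooth submanifold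
whose tangent space at the points `x` of `K` is `E x`.
-/

set_option autoImplicit false

open scoped Manifold ContDiff Topology

universe u

namespace Pool.Agent.Results.MP_4a0782_an.NormalEigenvalues

open Pool.Agent.H718R2.G Pool.Agent.TH80.OMS Pool.Agent.Helper21S

/-- `K` is a compact set with `F(K) ⊆ K` which is locally contained in smooth submanifolds with the
tangent spaces `E x`, `x ∈ K`, and `DF` maps `E x` into `E (F x)`. -/
structure InvSub (n : ℕ) {N : Type u} [TopologicalSpace N] [ChartedSpace (V n) N] (F : N → N)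
    (K : Set N) (E : N → Submodule ℝ (V n)) : Prop where
  compact : IsCompact K
  maps : ∀ x ∈ K, F x ∈ K
  sub : ∀ z ∈ K, LocSub n K E z
  inv : ∀ x ∈ K, ∀ v ∈ E x, dm F x v ∈ E (F x)

/-- `μ` is a complex eigenvalue of the map of `T_x N / E` induced by the derivative of `G` at its
fixed point `x`: there is a complex valued real-linear functional `l ≠ 0` on `T_x N` which vanishes on
`E` and satisfies `l ∘ DG = μ l`. -/
def NormalEigenvalue (n : ℕ) {N : Type u} [TopologicalSpace N] [ChartedSpace (V n) N] (G : N → N)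
    (x : N) (E : Submodule ℝ (V n)) (μ : ℂ) : Prop :=
  ∃ l : V n →ₗ[ℝ] ℂ, l ≠ 0 ∧ (∀ v ∈ E, l v = 0) ∧ ∀ v : V n, l (dm G x v) = μ * l v

/-- Let `N` be a closed manifold, `1 ≤ r ≤ ∞`, and let `F ∈ Diff^r(N)` be `Ω`-stable (for instance
structurally stable). Let `K` be a compact set with `F(K) ⊆ K` which is locally contained in smooth
submanifolds, of any dimension, with tangent spaces `E x`, `x ∈ K`, and let `DF` map `E x` into
`E (F x)` for `x ∈ K` (for instance, `K` is contained in a closed submanifold `S` with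
`F(S) ⊆ S`, `E = TS`). Then the periodic points in `K` are uniformly hyperbolic in the directions
normal to `E`: there is a `κ > 0` such that for all `x ∈ K` with `F^m x = x`, `m ≥ 1`, each eigenvalue
`μ` of the linear map of `T_x N / E x` induced by `D(F^m)` satisfies `|μ| ≥ exp(κ m)` or
`|μ| ≤ exp(-κ m)`. -/
theorem result {n : ℕ} {N : Type u} [TopologicalSpace N] [T2Space N] [CompactSpace N]
    [ChartedSpace (V n) N] [IsManifold (𝓡 n) ∞ N] (r : ℕ∞) (hr : 1 ≤ r) (F : DiffM n N r)
    (hF : OmegaStable n N r F) (K : Set N) (E : N → Submodule ℝ (V n)) (hK : InvSub n F K E) :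
    ∃ κ : ℝ, 0 < κ ∧ ∀ x ∈ K, ∀ m : ℕ, 1 ≤ m → F^[m] x = x → ∀ μ : ℂ,
      NormalEigenvalue n F^[m] x (E x) μ → Real.exp (κ * m) ≤ ‖μ‖ ∨ ‖μ‖ ≤ Real.exp (-(κ * m)) := by
  obtain ⟨U, hU, hFU, -, hH⟩ :=
    Pool.Agent.Y504.CO.stable_hyp Pool.Agent.Y504.CO.Plug.hF2 hr hF
  obtain ⟨κ, hκ, h⟩ := Pool.Agent.Helper21S.gap_compact (E := E) hr hU hFU hH hK.compact hK.maps
    hK.inv hK.sub
  refine ⟨κ, hκ, ?_⟩
  rintro x hx m hm hxm μ ⟨l, hl, hlE, hlμ⟩
  exact h x hx m hm hxm l hl hlE μ hlμ

end Pool.Agent.Results.MP_4a0782_an.NormalEigenvalues
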