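import Pool.Agent.Helper21S.Star

/-!
# The star property of `Ω`-stable diffeomorphisms in class `C^r`

`V n = ℝⁿ`, `DiffM n N r = Diff^r(N)` with its `C^r` topology (`Pool/Agent/H718R2/G0.lean`);
`OmegaStable`: `Pool/Agent/TH80/OMS/Defs.lean`; `GoodChart n N χ z` (`Pool/Agent/W564/SC/Defs.lean`):
`χ` is a chart of the smooth structure with `χ z = 0` whose target contains the closed unit ball.
-/

set_option autoImplicit false

open scoped Manifold ContDiff Topology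

universe u

namespace Pool.Agent.Results.MP_4a0782_an.StarProperty

open Pool.Agent.H718R2.G Pool.Agent.TH80.OMS Pool.Agent.W564.SC

/-- In the balls of radius `1/2` of good charts the distance of `N` is at most a multiple of the
distance of `ℝⁿ` (for instance a Riemannian distance). -/
def SmoothDist (n : ℕ) (N : Type*) [MetricSpace N] [ChartedSpace (V n) N] : Prop :=
  ∀ (χ : OpenPartialHomeomorph N (V n)) (z : N), GoodChart n N χ z → ∃ L : ℝ, 0 < L ∧
    ∀ y ∈ χ.source, ∀ y' ∈ χ.source, ‖χ y‖ ≤ 1 / 2 → ‖χ y'‖ ≤ 1 / 2 →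
      dist y y' ≤ L * ‖χ y - χ y'‖

/-- `p` has the period `m`, and the points `F^i p`, `0 ≤ i < m`, have at least the distance
`ρ(F^i p) > 0` from the other points of the orbit; `ρ ≤ 1`. -/
structure Separated {N : Type*} [MetricSpace N] (F : N → N) (m : ℕ) (p : N) (ρ : N → ℝ) : Prop where
  one_le : 1 ≤ m
  per : F^[m] p = p
  rho : ∀ x, 0 < ρ x ∧ ρ x ≤ 1
  sep : ∀ i < m, ∀ j < m, i ≠ j → ρ (F^[i] p) ≤ dist (F^[i] p) (F^[j] p)

/-- `μ` is a complex eigenvalue of the derivative of `G` at its fixed point `p`, computed in a chart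
of the smooth structure. -/
def IsEigenvalue (n : ℕ) {N : Type u} [TopologicalSpace N] [ChartedSpace (V n) N] (G : N → N)
    (p : N) (μ : ℂ) : Prop :=
  ∃ ψ ∈ IsManifold.maximalAtlas (𝓡 n) ∞ N, p ∈ ψ.source ∧ ∃ D : V n →L[ℝ] V n,
    HasFDerivAt (fun v => ψ (G (ψ.symm v))) D (ψ p) ∧
      ((LinearMap.charpoly (D : V n →ₗ[ℝ] V n)).map (algebraMap ℝ ℂ)).IsRoot μ

/-- `|log |μ|| ≥ t` -/
def FarFromCircle (μ : ℂ) (t : ℝ) : Prop := Real.exp t ≤ ‖μ‖ ∨ ‖μ‖ ≤ Real.exp (-t)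

/-- Let `N` be a closed manifold, `1 ≤ r ≤ ∞`, and let `F ∈ Diff^r(N)` be `Ω`-stable (for instance
structurally stable). There are a finite order `k`, `1 ≤ k ≤ r`, and a `κ > 0` such that for all
periodic points `p` of all periods `m`, if the points `F^i p`, `0 ≤ i < m`, have at least the distance
`ρ(F^i p)` from the other points of the orbit, `0 < ρ ≤ 1`, then every eigenvalue `μ` of the derivative
of `F^m` at `p` satisfies `|log |μ|| ≥ κ ∑ ρ(F^i p)^(k-1)`, where the sum is over `0 ≤ i < m`. -/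
theorem result {n : ℕ} {N : Type u} [MetricSpace N] [CompactSpace N] [ChartedSpace (V n) N]
    [IsManifold (𝓡 n) ∞ N] (hN : SmoothDist n N) (r : ℕ∞) (hr : 1 ≤ r) (F : DiffM n N r)
    (hF : OmegaStable n N r F) :
    ∃ k : ℕ, 1 ≤ k ∧ (k : ℕ∞) ≤ r ∧ ∃ κ : ℝ, 0 < κ ∧ ∀ (p : N) (m : ℕ) (ρ : N → ℝ),
      Separated F m p ρ → ∀ μ : ℂ, IsEigenvalue n F^[m] p μ →
        FarFromCircle μ (κ * ∑ i ∈ Finset.range m, ρ (F^[i] p) ^ (k - 1)) := by
  obtain ⟨k, hk, hkr, κ, hκ, h⟩ := Pool.Agent.Helper21S.sgap hN hr hF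
  refine ⟨k, hk, hkr, κ, hκ, ?_⟩
  rintro p m ρ ⟨hm, hp, hρ, hsep⟩ μ ⟨ψ, hψ, hpψ, D, hD, hμ⟩
  obtain ⟨l, hl, hlμ⟩ := Pool.Agent.Helper21S.left_of_root hψ hpψ
    (Pool.Agent.Helper21S.mdiff_iter (Pool.Agent.Helper21S.diffM_mdiff hr F) m p) hp hD μ hμ
  -- the points of the orbit, shifted by one
  have hmod : ∀ i : ℕ, F^[i] p = F^[i % m] p := by
    intro i
    conv_lhs => rw [← Nat.mod_add_div i m, Function.iterate_add_apply, Function.iterate_mul]
    congr 1
    exact Function.iterate_fixed hp _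
  have h1 := h p m hm hp ρ ⟨hρ, by
    intro i hi j hj hij
    rw [hmod (i + 1), hmod (j + 1)]
    apply hsep _ (Nat.mod_lt _ (by omega)) _ (Nat.mod_lt _ (by omega))
    intro heq
    apply hij
    have h2 : i ≡ j [MOD m] := Nat.ModEq.add_right_cancel' 1 heq
    have h3 : i % m = j % m := h2
    rwa [Nat.mod_eq_of_lt hi, Nat.mod_eq_of_lt hj] at h3⟩ l hl μ hlμ
  have h2 : Pool.Agent.Helper21S.wcnt F Set.univ ρ k m p =
      ∑ i ∈ Finset.range m, ρ (F^[i] p) ^ (k - 1) := by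
    rw [Pool.Agent.Helper21S.wcnt]
    simp only [Set.indicator_univ]
    have h3 : ∑ i ∈ Finset.range (m + 1), ρ (F^[i] p) ^ (k - 1) =
        ∑ i ∈ Finset.range (m + 1), ρ (F^[i] p) ^ (k - 1) := rfl
    conv_lhs at h3 => rw [Finset.sum_range_succ']
    rw [Finset.sum_range_succ, hp] at h3
    simp only [Function.iterate_zero, id_eq] at h3
    exact add_right_cancel h3
  rwa [h2] at h1

end Pool.Agent.Results.MP_4a0782_an.StarProperty
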